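import Pool.Agent.H50.LJ.Gap
import Pool.Agent.H72.KJ.Stmts

/-!
# LEMMA J, rows J4 and J6 in the form of `Pool.KJ`
-/

set_option autoImplicit false

namespace Pool.KJ

open Finset Real
open Pool.Agent.H49.Ent Pool.Agent.H32.Dense Pool.STK Pool.KAF Pool.KAL Pool.KST Pool.KS3 Pool.LJ

/-- The exponents of the thresholds. -/
def jex (N P w i : ℕ) : ℤ := if i ≤ N then -((P * w ^ (2 * (N - i)) : ℕ) : ℤ) else ((i - N : ℕ) : ℤ)

theorem jex_strict {N P w : ℕ} (hw : 2 ≤ w) (hP : 0 < P) : StrictMono (jex N P w) := by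
  refine strictMono_nat_of_lt_succ fun i => ?_
  unfold jex
  by_cases h1 : i + 1 ≤ N
  · rw [if_pos (by omega), if_pos h1]
    have h2 : P * w ^ (2 * (N - (i + 1))) < P * w ^ (2 * (N - i)) := by
      refine Nat.mul_lt_mul_of_pos_left ?_ hP
      exact Nat.pow_lt_pow_right (by omega) (by omega)
    omega
  · rw [if_neg h1]
    by_cases h2 : i ≤ N
    · rw [if_pos h2]
      have h3 : (0 : ℤ) < ((i + 1 - N : ℕ) : ℤ) := by
        have : 0 < i + 1 - N := by omega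
        exact_mod_cast this
      have h4 : -((P * w ^ (2 * (N - i)) : ℕ) : ℤ) ≤ 0 := by
        have := Int.natCast_nonneg (P * w ^ (2 * (N - i)))
        omega
      omega
    · rw [if_neg h2]
      omega

/-- **(J4)** -/
theorem j4_thm : J4Stmt := by
  classical
  intro n I w hw
  obtain ⟨N, hN⟩ : ∃ N, N = (expBox (Fin n) I).card := ⟨_, rfl⟩
  refine ⟨N, ?_⟩
  rintro T H C P Λ hH hC h0 ⟨β₀, hβ₀, hβ₁⟩ hPΛ hdvd hCP
  have hP : 0 < P := by
    rcases Nat.eq_zero_or_pos P with h | h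
    · rw [h, Nat.zero_div, pow_zero] at hCP
      linarith
    · exact h
  obtain ⟨θ, hθ⟩ : ∃ θ : ℕ → ℝ, θ = fun i => H * (2 : ℝ) ^ (jex N P w i) := ⟨_, rfl⟩
  have hθs : StrictMono θ := by
    intro i j hij
    rw [hθ]
    simp only
    refine mul_lt_mul_of_pos_left ?_ hH
    exact zpow_lt_zpow_right₀ (by norm_num) (jex_strict hw hP hij)
  have hθv : ∀ i, i ≤ N → θ i = H / 2 ^ (P * w ^ (2 * (N - i))) := by
    intro i hi
    rw [hθ]
    simp only
    unfold jex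
    rw [if_pos hi, zpow_neg, zpow_natCast, div_eq_mul_inv]
  have hpow : ∀ a b : ℕ, a ≤ b → H / 2 ^ b ≤ H / (2 : ℝ) ^ a := fun a b hab =>
    div_le_div_of_nonneg_left hH.le (by positivity) (pow_le_pow_right₀ (by norm_num) hab)
  have g0 : |T 0| ≤ θ 0 := by
    rw [hθv 0 (Nat.zero_le _)]
    exact h0.trans (hpow _ _ (by simpa using hPΛ))
  have g1 : θ (expBox (Fin n) I).card ≤ |T β₀| := by
    rw [← hN, hθv N le_rfl, Nat.sub_self, Nat.mul_zero, pow_zero, Nat.mul_one]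
    rw [div_le_iff₀ (by positivity)]
    have h1 : C ≤ 2 ^ P := by
      refine hCP.le.trans (pow_le_pow_right₀ (by norm_num) (Nat.div_le_self _ _))
    calc H ≤ C * |T β₀| := hβ₁
      _ ≤ 2 ^ P * |T β₀| := mul_le_mul_of_nonneg_right h1 (abs_nonneg _)
      _ = _ := mul_comm _ _
  obtain ⟨i, hi, β, v, hb1, hb2, hb3⟩ := gap T I θ hθs g0 β₀ hβ₀ g1
  rw [← hN] at hi
  refine ⟨N - i, β, v, Nat.sub_le _ _, ?_, ?_, ?_⟩
  · rw [map_add] at hb1
    have h2 : (Finsupp.single v 1 : Fin n →₀ ℕ).degree = 1 := by simp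
    omega
  · rw [hθv i hi.le] at hb2
    exact hb2
  · rw [hθv (i + 1) hi, div_le_iff₀ (by positivity)] at hb3
    have e1 : P * w ^ (2 * (N - i)) / w ^ 2 = P * w ^ (2 * (N - (i + 1))) := by
      have e2 : 2 * (N - i) = 2 * (N - (i + 1)) + 2 := by omega
      rw [e2, pow_add, ← Nat.mul_assoc, Nat.mul_div_cancel _ (by positivity)]
    rw [e1, mul_comm]
    exact hb3

/-- **(J6)** (with `ε ≤ 1`). -/
theorem j6 (h : ℕ → ℕ → ℝ) (k₂ Lm Λ : ℕ) (ε er : ℝ) (hε : ε ≤ 1) (her : 0 ≤ er)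
    (h0 : ∀ k k', 0 ≤ h k k')
    (hadd : ∀ k₁ k₂ k₃, k₁ ≤ k₂ → k₂ ≤ k₃ → k₃ ≤ Lm → h k₁ k₂ + h k₂ k₃ ≤ h k₁ k₃ + er)
    (hb : ∀ k : ℕ, k₂ ≤ k → k + Λ ≤ Lm → ∃ k' : ℕ, k < k' ∧ k' ≤ k + Λ ∧
      (1 - ε) * (k' - k) ≤ h k k') :
    (1 - ε) * (Lm - k₂ - Λ) ≤ h k₂ Lm + (Lm + 1) * er := by
  have hL0 : (0 : ℝ) ≤ Lm := Nat.cast_nonneg _
  have key : ∀ (d k : ℕ), k₂ ≤ k → k ≤ Lm → Lm - k ≤ d →
      (1 - ε) * (Lm - k - Λ) ≤ h k Lm + (Lm - k + 1) * er := by
    intro d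
    induction d with
    | zero =>
      intro k _ h2 h3
      have e : k = Lm := by omega
      rw [e]
      have a1 : (1 - ε) * ((Lm : ℝ) - Lm - Λ) ≤ 0 :=
        mul_nonpos_of_nonneg_of_nonpos (by linarith) (by
          have : (0 : ℝ) ≤ Λ := Nat.cast_nonneg _
          linarith)
      have a2 := h0 Lm Lm
      have a3 : ((Lm : ℝ) - Lm + 1) * er = er := by ring
      rw [a3]
      linarith
    | succ d ih =>
      intro k h1 h2 h3
      have hk : (k : ℝ) ≤ Lm := by exact_mod_cast h2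
      by_cases hΛ : k + Λ ≤ Lm
      · obtain ⟨k', b1, b2, b3⟩ := hb k h1 hΛ
        have c1 := ih k' (by omega) (by omega) (by omega)
        have c2 := hadd k k' Lm b1.le (by omega) le_rfl
        have c3 : (k : ℝ) + 1 ≤ k' := by exact_mod_cast b1
        have c4 : ((Lm : ℝ) - k' + 1) * er + er ≤ (Lm - k + 1) * er := by nlinarith
        have c5 : (1 - ε) * ((Lm : ℝ) - k - Λ) =
            (1 - ε) * (k' - k) + (1 - ε) * (Lm - k' - Λ) := by ring
        rw [c5]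
        linarith
      · have a1 : (1 - ε) * ((Lm : ℝ) - k - Λ) ≤ 0 := by
          refine mul_nonpos_of_nonneg_of_nonpos (by linarith) ?_
          have : Lm ≤ k + Λ := by omega
          have : (Lm : ℝ) ≤ k + Λ := by exact_mod_cast this
          linarith
        have a2 := h0 k Lm
        have a3 : 0 ≤ ((Lm : ℝ) - k + 1) * er := mul_nonneg (by linarith) her
        linarith
  by_cases hk : k₂ ≤ Lm
  · have h1 := key (Lm - k₂) k₂ le_rfl hk le_rfl
    have h2 : ((Lm : ℝ) - k₂ + 1) * er ≤ (Lm + 1) * er := by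
      refine mul_le_mul_of_nonneg_right ?_ her
      have : (0 : ℝ) ≤ k₂ := Nat.cast_nonneg _
      linarith
    linarith
  · have a1 : (1 - ε) * ((Lm : ℝ) - k₂ - Λ) ≤ 0 := by
      refine mul_nonpos_of_nonneg_of_nonpos (by linarith) ?_
      have h1 : (Lm : ℝ) ≤ k₂ := by
        have : Lm ≤ k₂ := by omega
        exact_mod_cast this
      have h2 : (0 : ℝ) ≤ Λ := Nat.cast_nonneg _
      linarith
    have a2 := h0 k₂ Lm
    have a3 : 0 ≤ ((Lm : ℝ) + 1) * er := mul_nonneg (by linarith) her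
    linarith

/-- **(J6)** -/
theorem j6_thm : J6Stmt := fun h k₂ Lm Λ ε er _ hε her h0 hadd hb =>
  j6 h k₂ Lm Λ ε er hε her h0 hadd hb

end Pool.KJ
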